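import Mathlib
import Pool.Agent.H84_tilf.Func

/-! Version of the automatic continuity theorem for an arbitrary (not normalised) Haar measure. -/

set_option autoImplicit false

namespace Pool.Agent.H84_tilfp
open MeasureTheory Submodule Finset Pool.Agent.H84_tilf
open scoped ComplexConjugate ENNReal InnerProductSpace

variable {G : Type} [TopologicalSpace G] [AddCommGroup G]
variable [IsTopologicalAddGroup G] [CompactSpace G] [T2Space G] [MeasurableSpace G] [BorelSpace G]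
  (μ : Measure G) [μ.IsAddHaarMeasure]

/-- normalisation constant -/
noncomputable def cc : ℝ := (Real.sqrt (μ.real Set.univ))⁻¹

omit [T2Space G] [BorelSpace G] in
lemma mass_pos : 0 < μ.real Set.univ := by
  rw [Measure.real]
  apply ENNReal.toReal_pos
  · exact (isOpen_univ.measure_pos μ Set.univ_nonempty).ne'
  · exact measure_ne_top μ _

omit [T2Space G] [BorelSpace G] in
lemma cc_pos : 0 < cc μ := by
  unfold cc
  have := mass_pos μ
  positivity

omit [T2Space G] [BorelSpace G] in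
lemma cc_sq : cc μ ^ 2 * μ.real Set.univ = 1 := by
  unfold cc
  have h := mass_pos μ
  rw [inv_pow, Real.sq_sqrt h.le, inv_mul_cancel₀ h.ne']

/-- the normalised character as an element of `L²` -/
noncomputable def chLp' (χ : chars G) : Lp ℂ 2 μ := (cc μ : ℂ) • ContinuousMap.toLp 2 μ ℂ χ.1

omit [T2Space G] in
theorem span_chLp_closure'
    (hsep : ∀ x y : G, x ≠ y → ∃ χ ∈ chars G, χ x ≠ χ y) :
    (span ℂ (Set.range (chLp' (G := G) μ))).topologicalClosure = ⊤ := by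
  have h1 := (ContinuousMap.toLp_denseRange ℂ μ ℂ (p := 2) (by simp)).topologicalClosure_map_submodule
      (span_chars_closure hsep)
  rw [map_span] at h1
  have h2 : span ℂ (Set.range (chLp' (G := G) μ)) =
      span ℂ ((ContinuousMap.toLp 2 μ ℂ : C(G, ℂ) →L[ℂ] Lp ℂ 2 μ) '' (chars G)) := by
    have hc : (cc μ : ℂ) ≠ 0 := by exact_mod_cast (cc_pos μ).ne'
    apply le_antisymm
    · rw [span_le]
      rintro _ ⟨χ, rfl⟩
      exact smul_mem _ _ (subset_span ⟨χ.1, χ.2, rfl⟩)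
    · rw [span_le]
      rintro _ ⟨χ, hχ, rfl⟩
      have h3 : ContinuousMap.toLp 2 μ ℂ χ = (cc μ : ℂ)⁻¹ • chLp' μ ⟨χ, hχ⟩ := by
        unfold chLp'
        rw [smul_smul, inv_mul_cancel₀ hc, one_smul]
      change ContinuousMap.toLp 2 μ ℂ χ ∈ _
      rw [h3]
      exact smul_mem _ _ (subset_span ⟨_, rfl⟩)
  rw [h2]
  exact h1

omit [T2Space G] in
theorem orthonormal_chLp' : Orthonormal ℂ (chLp' (G := G) μ) := by
  classical
  rw [orthonormal_iff_ite]
  intro χ ψ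
  unfold chLp'
  rw [inner_smul_left, inner_smul_right, ContinuousMap.inner_toLp]
  split_ifs with h
  · subst h
    have : ∀ x, χ.1 x * conj (χ.1 x) = 1 := fun x => by rw [mul_comm]; exact ch_conj χ.2 x
    simp only [this, integral_const, Complex.conj_ofReal]
    have h2 := cc_sq μ
    rw [Complex.real_smul]
    rw [mul_one, ← mul_assoc]
    exact_mod_cast (by rw [← sq]; exact h2 : cc μ * cc μ * μ.real Set.univ = 1)
  · have h1 : ∀ x, ψ.1 x * conj (χ.1 x) = (ψ.1 * star χ.1) x := fun x => by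
      simp [ContinuousMap.mul_apply]
    simp_rw [h1]
    rw [integral_char μ (mul_mem_chars ψ.2 (star_mem_chars χ.2)), mul_zero, mul_zero]
    intro h2
    apply h
    apply Subtype.ext
    ext x
    have h3 := congrArg (fun f : C(G, ℂ) => f x) h2
    simp only [ContinuousMap.mul_apply, ContinuousMap.star_apply, ContinuousMap.one_apply] at h3
    have h4 := ch_conj χ.2 x
    have h5 : star (χ.1 x) = conj (χ.1 x) := rfl
    rw [h5] at h3
    calc χ.1 x = χ.1 x * (ψ.1 x * conj (χ.1 x)) := by rw [h3, mul_one]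
      _ = ψ.1 x * (conj (χ.1 x) * χ.1 x) := by ring
      _ = ψ.1 x := by rw [h4, mul_one]

/-- the Hilbert basis of normalised characters -/
noncomputable def chBasis' (hsep : ∀ x y : G, x ≠ y → ∃ χ ∈ chars G, χ x ≠ χ y) :
    HilbertBasis (chars G) ℂ (Lp ℂ 2 μ) :=
  HilbertBasis.mk (orthonormal_chLp' μ) (span_chLp_closure' μ hsep).ge

omit [T2Space G] in
lemma chBasis'_apply (hsep : ∀ x y : G, x ≠ y → ∃ χ ∈ chars G, χ x ≠ χ y) (χ : chars G) :
    chBasis' μ hsep χ = chLp' μ χ := by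
  unfold chBasis'
  rw [HilbertBasis.coe_mk]

omit [T2Space G] in
lemma tr_ch' (a : G) (χ : chars G) : tr μ a (chLp' μ χ) = χ.1 a • chLp' μ χ := by
  unfold chLp'
  rw [map_smul, smul_comm]
  congr 1
  apply Lp.ext
  have h1 := tr_coe μ a (ContinuousMap.toLp 2 μ ℂ χ.1)
  have h2 : (ContinuousMap.toLp 2 μ ℂ χ.1 : G → ℂ) =ᵐ[μ] χ.1 := ContinuousMap.coeFn_toLp μ χ.1
  have h3 := (measurePreserving_add_right μ a).quasiMeasurePreserving.ae_eq_comp h2
  have h4 := Lp.coeFn_smul (χ.1 a) (ContinuousMap.toLp 2 μ ℂ χ.1)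
  filter_upwards [h1, h2, h3, h4] with x h1 h2 h3 h4
  rw [h1, h4, Pi.smul_apply, h2, smul_eq_mul]
  have h5 : (ContinuousMap.toLp 2 μ ℂ χ.1 : G → ℂ) (x + a) = χ.1 (x + a) := h3
  rw [h5, ch_add χ.2, mul_comm]

omit [T2Space G] in
theorem repr_tr' (hsep : ∀ x y : G, x ≠ y → ∃ χ ∈ chars G, χ x ≠ χ y) (a : G) (g : Lp ℂ 2 μ)
    (χ : chars G) : (chBasis' μ hsep).repr (tr μ a g) χ = χ.1 a * (chBasis' μ hsep).repr g χ := by
  rw [HilbertBasis.repr_apply_apply, HilbertBasis.repr_apply_apply, chBasis'_apply]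
  have h1 : ⟪tr μ a (chLp' μ χ), tr μ a g⟫_ℂ = ⟪chLp' μ χ, g⟫_ℂ := (tr μ a).inner_map_map _ _
  rw [tr_ch', inner_smul_left] at h1
  rw [← h1, ← mul_assoc, mul_comm (χ.1 a), ch_conj χ.2, one_mul]

omit [T2Space G] in
theorem phi_zero' (ν : Measure G) [ν.IsAddHaarMeasure] [IsProbabilityMeasure ν]
    (hsep : ∀ x y : G, x ≠ y → ∃ χ ∈ chars G, χ x ≠ χ y)
    (u : G) (hu : DenseRange (fun n : ℤ => n • u)) (φ : Lp ℂ 2 μ →ₗ[ℂ] ℂ)
    (hφ : ∀ (a : G) (f : Lp ℂ 2 μ), φ (tr μ a f) = φ f) (f : Lp ℂ 2 μ)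
    (hf : (chBasis' μ hsep).repr f ⟨1, one_mem_chars⟩ = 0) : φ f = 0 := by
  set b := chBasis' μ hsep with hb
  set fh := b.repr f with hfh
  have hsum2 : Summable (fun χ => ‖fh χ‖ ^ 2) := by
    have := lp.memℓp fh
    have h2 := this.summable (by norm_num : (0 : ℝ) < (2 : ℝ≥0∞).toReal)
    simpa using h2
  have hc : ∑' χ, ENNReal.ofReal (‖fh χ‖ ^ 2) ≠ ∞ := hsum2.tsum_ofReal_ne_top
  obtain ⟨⟨a1, a2, a3, a4⟩, ha⟩ := exists_points ν u hu (fun χ => ENNReal.ofReal (‖fh χ‖ ^ 2)) hc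
    (by simp only [hf]; simp)
  set a : Fin 5 → G := ![u, a1, a2, a3, a4] with ha5
  have hS0 : ∀ χ : chars G, 0 ≤ SS a χ.1 := fun χ => Finset.sum_nonneg fun _ _ => by positivity
  -- summability of |fh|^2 / S
  have hsumS : Summable (fun χ : chars G => ‖fh χ‖ ^ 2 * (SS a χ.1)⁻¹) := by
    have hle : ∀ χ : chars G, ENNReal.ofReal (‖fh χ‖ ^ 2 * (SS a χ.1)⁻¹) ≤
        ENNReal.ofReal (‖fh χ‖ ^ 2) * (ww u χ.1 a1 * (ww u χ.1 a2 *
      (ww u χ.1 a3 * ww u χ.1 a4))) := by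
      intro χ
      by_cases h1 : χ.1 = 1
      · have h2 : χ = ⟨1, one_mem_chars⟩ := Subtype.ext h1
        rw [h2, hf]
        simp
      · have h3 := inv_SS_le u a1 a2 a3 a4 χ.1 (ne_one_of u hu χ.2 h1)
        unfold ww
        rw [← ENNReal.ofReal_mul (by positivity), ← ENNReal.ofReal_mul (by positivity),
          ← ENNReal.ofReal_mul (by positivity), ← ENNReal.ofReal_mul (by positivity)]
        apply ENNReal.ofReal_le_ofReal
        exact mul_le_mul_of_nonneg_left h3 (by positivity)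
    have h4 : ∑' χ : chars G, ENNReal.ofReal (‖fh χ‖ ^ 2 * (SS a χ.1)⁻¹) ≠ ∞ :=
      ne_top_of_le_ne_top ha (ENNReal.tsum_le_tsum hle)
    have h5 := ENNReal.summable_toReal h4
    refine h5.congr fun χ => ?_
    rw [ENNReal.toReal_ofReal (mul_nonneg (by positivity) (inv_nonneg.2 (hS0 χ)))]
  -- coefficients
  let gc : Fin 5 → chars G → ℂ := fun j χ =>
    conj (χ.1 (a j) - 1) * ((SS a χ.1 : ℝ) : ℂ)⁻¹ * fh χ
  have hgc : ∀ j, Memℓp (gc j) 2 := by
    intro j
    apply memℓp_gen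
    refine Summable.of_nonneg_of_le (fun _ => by positivity) (fun χ => ?_) hsumS
    have h6 : ‖χ.1 (a j) - 1‖ ^ 2 ≤ SS a χ.1 :=
      Finset.single_le_sum (f := fun j => ‖χ.1 (a j) - 1‖ ^ 2) (fun _ _ => by positivity)
        (Finset.mem_univ j)
    have h7 : ‖gc j χ‖ = ‖χ.1 (a j) - 1‖ * (SS a χ.1)⁻¹ * ‖fh χ‖ := by
      simp only [gc]
      rw [norm_mul, norm_mul, RCLike.norm_conj, norm_inv, Complex.norm_real,
        Real.norm_of_nonneg (hS0 χ)]
    have h8 : (‖gc j χ‖ : ℝ) ^ ((2 : ℝ≥0∞).toReal) = ‖gc j χ‖ ^ 2 := by simp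
    rw [h8, h7]
    calc (‖χ.1 (a j) - 1‖ * (SS a χ.1)⁻¹ * ‖fh χ‖) ^ 2
        = ‖χ.1 (a j) - 1‖ ^ 2 * ((SS a χ.1)⁻¹ * (SS a χ.1)⁻¹ * ‖fh χ‖ ^ 2) := by ring
      _ ≤ SS a χ.1 * ((SS a χ.1)⁻¹ * (SS a χ.1)⁻¹ * ‖fh χ‖ ^ 2) :=
          mul_le_mul_of_nonneg_right h6 (by
            have := inv_nonneg.2 (hS0 χ)
            positivity)
      _ ≤ ‖fh χ‖ ^ 2 * (SS a χ.1)⁻¹ := by
          rcases (hS0 χ).eq_or_lt with h | h
          · rw [← h]; simp
          · apply le_of_eq; field_simp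
  let g : Fin 5 → Lp ℂ 2 μ := fun j => b.repr.symm ⟨gc j, hgc j⟩
  have hg : ∀ j χ, b.repr (g j) χ = gc j χ := by
    intro j χ
    simp only [g, LinearIsometryEquiv.apply_symm_apply]
  have hdec : f = ∑ j, (tr μ (a j) (g j) - g j) := by
    apply b.repr.injective
    ext χ
    rw [map_sum, lp.coeFn_sum, Finset.sum_apply]
    simp only [map_sub, lp.coeFn_sub, Pi.sub_apply]
    have h9 : ∀ j, b.repr (tr μ (a j) (g j)) χ = χ.1 (a j) * gc j χ := fun j => by
      rw [hb, repr_tr', ← hb, hg]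
    simp_rw [h9, hg]
    by_cases h1 : χ.1 = 1
    · have h2 : χ = ⟨1, one_mem_chars⟩ := Subtype.ext h1
      have h3 : ∀ j, gc j χ = 0 := fun j => by
        simp only [gc]
        rw [h2, hf, mul_zero]
      simp only [h3, mul_zero, sub_zero, Finset.sum_const_zero]
      rw [h2]
      exact hf
    · have hSne : ((SS a χ.1 : ℝ) : ℂ) ≠ 0 := by
        have h4 : 0 < SS a χ.1 := by
          have h5 : ‖χ.1 u - 1‖ ^ 2 ≤ SS a χ.1 :=
            Finset.single_le_sum (f := fun j => ‖χ.1 (a j) - 1‖ ^ 2) (fun _ _ => by positivity)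
              (Finset.mem_univ 0)
          have h6 : 0 < ‖χ.1 u - 1‖ :=
            norm_pos_iff.2 (sub_ne_zero.2 (ne_one_of u hu χ.2 h1))
          have h7 : 0 < ‖χ.1 u - 1‖ ^ 2 := by positivity
          linarith
        exact_mod_cast h4.ne'
      have h10 : ∀ j, χ.1 (a j) * gc j χ - gc j χ
          = ((‖χ.1 (a j) - 1‖ ^ 2 : ℝ) : ℂ) * (((SS a χ.1 : ℝ) : ℂ)⁻¹ * fh χ) := by
        intro j
        simp only [gc]
        have h11 : ((‖χ.1 (a j) - 1‖ ^ 2 : ℝ) : ℂ) = (χ.1 (a j) - 1) * conj (χ.1 (a j) - 1) := by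
          rw [Complex.mul_conj']; push_cast; rfl
        rw [h11]; ring
      simp_rw [h10]
      rw [← Finset.sum_mul, ← Complex.ofReal_sum]
      change fh χ = ((SS a χ.1 : ℝ) : ℂ) * _
      rw [mul_inv_cancel_left₀ hSne]
  rw [hdec, map_sum]
  apply Finset.sum_eq_zero
  intro j _
  rw [map_sub, hφ, sub_self]

omit [T2Space G] in
theorem phi_continuous' (ν : Measure G) [ν.IsAddHaarMeasure] [IsProbabilityMeasure ν]
    (hsep : ∀ x y : G, x ≠ y → ∃ χ ∈ chars G, χ x ≠ χ y)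
    (u : G) (hu : DenseRange (fun n : ℤ => n • u)) (φ : Lp ℂ 2 μ →ₗ[ℂ] ℂ)
    (hφ : ∀ (a : G) (f : Lp ℂ 2 μ), φ (tr μ a f) = φ f) : Continuous φ := by
  classical
  set b := chBasis' μ hsep with hb
  set o : chars G := ⟨1, one_mem_chars⟩ with ho
  have key : ∀ f : Lp ℂ 2 μ, φ f = b.repr f o * φ (b o) := by
    intro f
    have h1 : φ (f - b.repr f o • b o) = 0 := by
      apply phi_zero' μ ν hsep u hu φ hφ
      rw [← hb, map_sub, map_smul, lp.coeFn_sub, lp.coeFn_smul, Pi.sub_apply, Pi.smul_apply,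
        HilbertBasis.repr_self, lp.single_apply_self]
      simp
      exact sub_self _
    rw [map_sub, map_smul, smul_eq_mul] at h1
    linear_combination h1
  have h2 : (φ : Lp ℂ 2 μ → ℂ) = fun f => b.repr f o * φ (b o) := funext key
  rw [h2]
  have h3 : (fun f => b.repr f o) = fun f => inner ℂ (b o) f := by
    ext f; rw [HilbertBasis.repr_apply_apply]
  apply Continuous.mul _ continuous_const
  rw [h3]
  exact continuous_const.inner continuous_id

end Pool.Agent.H84_tilfp
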