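
import Pool.Agent.H84_tilfp.Zp

set_option autoImplicit false


namespace Pool.Agent.H84_tilfp.Final

/-- For every prime p, every complex linear functional on L² of the p-adic integers (Haar measure) that takes the same value on a function and on each of its translates is continuous. -/
theorem result :
    ∀ (p : ℕ) [Fact p.Prime] [MeasurableSpace (PadicInt p)] [BorelSpace (PadicInt p)],
      ∀ φ : MeasureTheory.Lp ℂ 2 (MeasureTheory.Measure.addHaar : MeasureTheory.Measure (PadicInt p)) →ₗ[ℂ] ℂ,
        (∀ (a : PadicInt p)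
            (f g : MeasureTheory.Lp ℂ 2 (MeasureTheory.Measure.addHaar : MeasureTheory.Measure (PadicInt p))),
            (g : PadicInt p → ℂ) =ᵐ[(MeasureTheory.Measure.addHaar : MeasureTheory.Measure (PadicInt p))]
              (fun x => (f : PadicInt p → ℂ) (x + a)) → φ g = φ f) →
        Continuous φ := by
  intro p _ _ _ φ hφ
  set K : TopologicalSpace.PositiveCompacts ℤ_[p] := ⊤ with hK
  set ν : MeasureTheory.Measure ℤ_[p] := MeasureTheory.Measure.addHaarMeasure K with hν
  haveI hν1 : MeasureTheory.IsProbabilityMeasure ν := ⟨by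
    have h := MeasureTheory.Measure.addHaarMeasure_self (K₀ := K)
    have h2 : (K : Set ℤ_[p]) = Set.univ := rfl
    rw [h2] at h
    exact h⟩
  apply Pool.Agent.H84_tilfp.phi_continuous' (μ := MeasureTheory.Measure.addHaar) ν
    (Pool.Agent.H84_tilfp.zsep p) 1 (Pool.Agent.H84_tilfp.zdense p) φ
  intro a f
  exact hφ a f _ (Pool.Agent.H84_tilf.tr_coe _ a f)

end Pool.Agent.H84_tilfp.Final
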